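import Pool.Agent.W285.UB.Stm

set_option autoImplicit false

/-! # Project UB, part BALL (helper108) -/

namespace Pool.Agent.W108.UB

open Pool.Agent.W285.UB NumberField Height Module Pool.Agent.Helper259.AbsHt

theorem ball_eq (K : Type) [Field K] [NumberField K] (H : ℕ) :
    ball K H = (RingOfIntegers.basis K).equivFun.symm ''
      (↑(Fintype.piFinset fun _ : Free.ChooseBasisIndex ℤ (𝓞 K) =>
        Finset.Icc (-(H : ℤ)) H) : Set (Free.ChooseBasisIndex ℤ (𝓞 K) → ℤ)) := by
  ext z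
  constructor
  · intro hz
    refine ⟨(RingOfIntegers.basis K).equivFun z, ?_, LinearEquiv.symm_apply_apply _ _⟩
    rw [Finset.mem_coe, Fintype.mem_piFinset]
    intro j
    rw [Finset.mem_Icc]
    have := abs_le.1 (hz j)
    rw [Basis.equivFun_apply]
    exact this
  · rintro ⟨x, hx, rfl⟩ j
    rw [Finset.mem_coe, Fintype.mem_piFinset] at hx
    have h1 := hx j
    rw [Finset.mem_Icc] at h1
    have h2 : (RingOfIntegers.basis K).repr ((RingOfIntegers.basis K).equivFun.symm x) j = x j := by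
      rw [← Basis.equivFun_apply, LinearEquiv.apply_symm_apply]
    rw [h2]
    exact abs_le.2 h1

theorem ball : S_BALL := by
  intro K _ _
  refine ⟨fun H => ?_, ?_⟩
  · rw [ball_eq]
    refine ⟨(Finset.finite_toSet _).image _, ?_⟩
    rw [Set.ncard_image_of_injective _ (RingOfIntegers.basis K).equivFun.symm.injective,
      Set.ncard_coe_finset, Fintype.card_piFinset, Finset.prod_const, Int.card_Icc,
      Finset.card_univ, ← Module.finrank_eq_card_chooseBasisIndex, RingOfIntegers.rank]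
    congr 1
    omega
  · have hs0 : ∀ σ : K →+* ℂ, 0 ≤ ∑ j, ‖σ ((RingOfIntegers.basis K j : 𝓞 K) : K)‖ := fun σ =>
      Finset.sum_nonneg fun _ _ => norm_nonneg _
    refine ⟨1 + ∑ σ : K →+* ℂ, ∑ j, ‖σ ((RingOfIntegers.basis K j : 𝓞 K) : K)‖, ?_, ?_⟩
    · have := Finset.sum_nonneg (s := (Finset.univ : Finset (K →+* ℂ))) fun σ _ => hs0 σ
      linarith
    · intro H z hz σ
      have h1 : σ (z : K) = ∑ j, (((RingOfIntegers.basis K).repr z j : ℤ) : ℂ) *
          σ ((RingOfIntegers.basis K j : 𝓞 K) : K) := by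
        have e := congrArg (fun y : 𝓞 K => (σ.comp (algebraMap (𝓞 K) K)) y)
          ((RingOfIntegers.basis K).sum_repr z)
        simp only [map_sum, zsmul_eq_mul, map_mul, map_intCast] at e
        exact e.symm
      have h2 : ∑ j, ‖σ ((RingOfIntegers.basis K j : 𝓞 K) : K)‖ ≤
          ∑ σ : K →+* ℂ, ∑ j, ‖σ ((RingOfIntegers.basis K j : 𝓞 K) : K)‖ :=
        Finset.single_le_sum (f := fun σ : K →+* ℂ =>
          ∑ j, ‖σ ((RingOfIntegers.basis K j : 𝓞 K) : K)‖) (fun σ _ => hs0 σ) (Finset.mem_univ σ)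
      rw [h1]
      calc ‖∑ j, (((RingOfIntegers.basis K).repr z j : ℤ) : ℂ) *
          σ ((RingOfIntegers.basis K j : 𝓞 K) : K)‖ ≤
          ∑ j, ‖(((RingOfIntegers.basis K).repr z j : ℤ) : ℂ) *
          σ ((RingOfIntegers.basis K j : 𝓞 K) : K)‖ := norm_sum_le _ _
        _ ≤ ∑ j, (H : ℝ) * ‖σ ((RingOfIntegers.basis K j : 𝓞 K) : K)‖ := by
            refine Finset.sum_le_sum fun j _ => ?_
            rw [norm_mul]
            refine mul_le_mul_of_nonneg_right ?_ (norm_nonneg _)
            rw [Complex.norm_intCast]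
            exact_mod_cast hz j
        _ = H * ∑ j, ‖σ ((RingOfIntegers.basis K j : 𝓞 K) : K)‖ := by rw [Finset.mul_sum]
        _ ≤ H * (1 + ∑ σ : K →+* ℂ, ∑ j, ‖σ ((RingOfIntegers.basis K j : 𝓞 K) : K)‖) := by
            refine mul_le_mul_of_nonneg_left ?_ (Nat.cast_nonneg H)
            linarith
        _ = _ := by ring

end Pool.Agent.W108.UB
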